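import Pool.Agent.H11.NZ.Targets

set_option autoImplicit false

open Equiv (Perm)

namespace Pool.Agent.H34.NZ.CLS

open Pool.Agent.H11.NY Pool.Agent.H11.NZ

theorem greedy {Ω : Type} [Fintype Ω] [DecidableEq Ω] (τ : Perm Ω) : ∀ u : ℕ,
    4 * u + 2 ≤ τ.support.card →
    ∃ α : Fin u → Ω, Function.Injective α ∧ (∀ i, α i ∈ τ.support) ∧
      ∀ i j, α i ≠ τ (α j) := by
  intro u
  induction u with
  | zero =>
    intro _
    exact ⟨Fin.elim0, fun i => i.elim0, fun i => i.elim0, fun i => i.elim0⟩
  | succ u ih =>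
    intro h
    obtain ⟨α, h1, h2, h3⟩ := ih (by omega)
    let F : Finset Ω := Finset.univ.image α ∪ (Finset.univ.image (fun i => τ (α i)) ∪
      Finset.univ.image (fun i => τ⁻¹ (α i)))
    have hF : F.card ≤ 3 * u := by
      have a1 : (Finset.univ.image α).card ≤ u := by
        have := Finset.card_image_le (s := Finset.univ) (f := α)
        rwa [Finset.card_univ, Fintype.card_fin] at this
      have a2 : (Finset.univ.image (fun i => τ (α i))).card ≤ u := by
        have := Finset.card_image_le (s := Finset.univ) (f := fun i => τ (α i))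
        rwa [Finset.card_univ, Fintype.card_fin] at this
      have a3 : (Finset.univ.image (fun i => τ⁻¹ (α i))).card ≤ u := by
        have := Finset.card_image_le (s := Finset.univ) (f := fun i => τ⁻¹ (α i))
        rwa [Finset.card_univ, Fintype.card_fin] at this
      have b1 := Finset.card_union_le (Finset.univ.image α)
        (Finset.univ.image (fun i => τ (α i)) ∪ Finset.univ.image (fun i => τ⁻¹ (α i)))
      have b2 := Finset.card_union_le (Finset.univ.image (fun i => τ (α i)))
        (Finset.univ.image (fun i => τ⁻¹ (α i)))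
      have b3 : F.card ≤ (Finset.univ.image α).card +
        (Finset.univ.image (fun i => τ (α i)) ∪ Finset.univ.image (fun i => τ⁻¹ (α i))).card := b1
      omega
    have hex : ∃ x ∈ τ.support, x ∉ F := by
      by_contra hcon
      push Not at hcon
      have := Finset.card_le_card (show τ.support ⊆ F from fun x hx => hcon x hx)
      omega
    obtain ⟨x, hx, hxF⟩ := hex
    have c1 : ∀ i, α i ≠ x := fun i hi => hxF (by
      apply Finset.mem_union_left
      exact Finset.mem_image.mpr ⟨i, Finset.mem_univ i, hi⟩)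
    have c2 : ∀ i, τ (α i) ≠ x := fun i hi => hxF (by
      apply Finset.mem_union_right
      apply Finset.mem_union_left
      exact Finset.mem_image.mpr ⟨i, Finset.mem_univ i, hi⟩)
    have c3 : ∀ i, α i ≠ τ x := fun i hi => hxF (by
      apply Finset.mem_union_right
      apply Finset.mem_union_right
      refine Finset.mem_image.mpr ⟨i, Finset.mem_univ i, ?_⟩
      show τ⁻¹ (α i) = x
      rw [hi]
      exact τ.symm_apply_apply x)
    refine ⟨Fin.snoc (α := fun _ => Ω) α x, ?_, ?_, ?_⟩
    · intro i j
      refine Fin.lastCases ?_ (fun i => ?_) i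
      · refine Fin.lastCases ?_ (fun j => ?_) j
        · intro _; rfl
        · rw [Fin.snoc_last, Fin.snoc_castSucc]
          intro hh
          exact absurd hh.symm (c1 j)
      · refine Fin.lastCases ?_ (fun j => ?_) j
        · rw [Fin.snoc_last, Fin.snoc_castSucc]
          intro hh
          exact absurd hh (c1 i)
        · rw [Fin.snoc_castSucc, Fin.snoc_castSucc]
          intro hh
          rw [h1 hh]
    · intro i
      refine Fin.lastCases ?_ (fun i => ?_) i
      · rw [Fin.snoc_last]; exact hx
      · rw [Fin.snoc_castSucc]; exact h2 i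
    · intro i j
      refine Fin.lastCases ?_ (fun i => ?_) i
      · refine Fin.lastCases ?_ (fun j => ?_) j
        · rw [Fin.snoc_last]
          exact (Equiv.Perm.mem_support.mp hx).symm
        · rw [Fin.snoc_last, Fin.snoc_castSucc]
          exact (c2 j).symm
      · refine Fin.lastCases ?_ (fun j => ?_) j
        · rw [Fin.snoc_last, Fin.snoc_castSucc]
          exact c3 i
        · rw [Fin.snoc_castSucc, Fin.snoc_castSucc]
          exact h3 i j

theorem pf_cls (hPLA : T_PLA) : T_CLS := by
  intro Ω _ _ u τ Y hs hY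
  obtain ⟨α, hα, hαs, hαβ⟩ := greedy (τ : Perm Ω) u hs
  have hn : (τ : Perm Ω).support.card ≤ Fintype.card Ω := Finset.card_le_univ _
  classical
  -- the good embeddings
  have hw : ∀ γ : Fin u ↪ {x : Ω // x ∉ Finset.univ.image α},
      ∃ w : alternatingGroup Ω, (∀ i, (w : Perm Ω) (α i) = α i) ∧
        ∀ i, (w : Perm Ω) ((τ : Perm Ω) (α i)) = (γ i : Ω) := by
    intro γ
    have hβ : ∀ i j, (γ i : Ω) ≠ α j := by
      intro i j hij
      exact (γ i).2 (Finset.mem_image.mpr ⟨j, Finset.mem_univ j, hij.symm⟩)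
    let f : Fin u ⊕ Fin u ↪ Ω := ⟨Sum.elim α (fun i => (τ : Perm Ω) (α i)), by
      rintro (i | i) (j | j) h
      · exact congrArg Sum.inl (hα h)
      · exact absurd h (hαβ i j)
      · exact absurd h.symm (hαβ j i)
      · exact congrArg Sum.inr (hα ((τ : Perm Ω).injective h))⟩
    let g : Fin u ⊕ Fin u ↪ Ω := ⟨Sum.elim α (fun i => (γ i : Ω)), by
      rintro (i | i) (j | j) h
      · exact congrArg Sum.inl (hα h)
      · exact absurd h.symm (hβ j i)
      · exact absurd h (hβ i j)
      · exact congrArg Sum.inr (γ.injective (Subtype.ext h))⟩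
    obtain ⟨w, hw, hfg⟩ := hPLA Ω (Fin u ⊕ Fin u) f g (by
      rw [Fintype.card_sum, Fintype.card_fin]; omega)
    exact ⟨⟨w, hw⟩, fun i => hfg (Sum.inl i), fun i => hfg (Sum.inr i)⟩
  choose W hW1 hW2 using hw
  have hinj : Function.Injective (fun p : (Fin u ↪ {x : Ω // x ∉ Finset.univ.image α}) × Y =>
      W p.1 * (p.2 : alternatingGroup Ω)) := by
    rintro ⟨γ, y⟩ ⟨γ', y'⟩ h
    have key : ∀ (γ : Fin u ↪ {x : Ω // x ∉ Finset.univ.image α}) (y : Y) (i : Fin u),
        (((W γ * (y : alternatingGroup Ω)) * τ * (W γ * (y : alternatingGroup Ω))⁻¹ :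
          alternatingGroup Ω) : Perm Ω) (α i) = (γ i : Ω) := by
      intro γ y i
      have e1 : (W γ * (y : alternatingGroup Ω)) * τ * (W γ * (y : alternatingGroup Ω))⁻¹ =
          W γ * τ * (W γ)⁻¹ := by
        have := hY y y.2
        calc (W γ * (y : alternatingGroup Ω)) * τ * (W γ * (y : alternatingGroup Ω))⁻¹
            = W γ * ((y : alternatingGroup Ω) * τ) * (y : alternatingGroup Ω)⁻¹ * (W γ)⁻¹ := by
              group
          _ = W γ * (τ * (y : alternatingGroup Ω)) * (y : alternatingGroup Ω)⁻¹ * (W γ)⁻¹ := by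
              rw [this]
          _ = W γ * τ * (W γ)⁻¹ := by group
      rw [e1]
      have e2 : ((W γ : Perm Ω))⁻¹ (α i) = α i := by
        rw [Equiv.Perm.inv_eq_iff_eq]
        exact (hW1 γ i).symm
      show (W γ : Perm Ω) ((τ : Perm Ω) (((W γ : Perm Ω))⁻¹ (α i))) = (γ i : Ω)
      rw [e2]
      exact hW2 γ i
    have h' : W γ * (y : alternatingGroup Ω) = W γ' * (y' : alternatingGroup Ω) := h
    have hγ : γ = γ' := by
      apply Function.Embedding.ext
      intro i
      apply Subtype.ext
      rw [← key γ y i, ← key γ' y' i, h']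
    subst hγ
    have hy : y = y' := Subtype.ext (mul_left_cancel h')
    rw [hy]
  have hcard := Nat.card_le_card_of_injective _ hinj
  rw [Nat.card_prod, Nat.card_eq_fintype_card (α := (Fin u ↪ {x : Ω // x ∉ Finset.univ.image α})),
    Fintype.card_embedding_eq, Fintype.card_fin] at hcard
  have hsub : Fintype.card {x : Ω // x ∉ Finset.univ.image α} = Fintype.card Ω - u := by
    rw [Fintype.card_subtype_compl (fun x => x ∈ Finset.univ.image α)]
    rw [Fintype.card_coe, Finset.card_image_of_injective _ hα, Finset.card_univ, Fintype.card_fin]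
  rw [hsub] at hcard
  have h1 := Nat.pow_sub_le_descFactorial (Fintype.card Ω - u) u
  have h2 : Fintype.card Ω ≤ 2 * (Fintype.card Ω - u + 1 - u) := by omega
  calc Fintype.card Ω ^ u * Nat.card Y
      ≤ (2 * (Fintype.card Ω - u + 1 - u)) ^ u * Nat.card Y :=
        Nat.mul_le_mul_right _ (Nat.pow_le_pow_left h2 u)
    _ = 2 ^ u * ((Fintype.card Ω - u + 1 - u) ^ u * Nat.card Y) := by
        rw [mul_pow, mul_assoc]
    _ ≤ 2 ^ u * ((Fintype.card Ω - u).descFactorial u * Nat.card Y) :=
        Nat.mul_le_mul_left _ (Nat.mul_le_mul_right _ h1)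
    _ ≤ 2 ^ u * Nat.card (alternatingGroup Ω) := Nat.mul_le_mul_left _ hcard

end Pool.Agent.H34.NZ.CLS
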