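import Pool.Agent.H11.NZ.Targets

set_option autoImplicit false

open Equiv (Perm)

namespace Pool.Agent.H34.NZ.OUT

open Pool.Agent.H11.NY Pool.Agent.H11.NZ

/-- conjugation by elements of `X` on a subgroup `T` normalised by `X` -/
def cj {Q : Type} [Group Q] (X T : Subgroup Q)
    (h : ∀ x ∈ X, ∀ y ∈ T, x * y * x⁻¹ ∈ T) : X →* MulAut T where
  toFun x :=
    { toFun := fun y => ⟨(x : Q) * (y : Q) * (x : Q)⁻¹, h x x.2 y y.2⟩
      invFun := fun y => ⟨(x : Q)⁻¹ * (y : Q) * (x : Q), by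
        have := h (x : Q)⁻¹ (X.inv_mem x.2) y y.2
        rwa [inv_inv] at this⟩
      left_inv := fun y => by
        apply Subtype.ext
        simp only
        group
      right_inv := fun y => by
        apply Subtype.ext
        simp only
        group
      map_mul' := fun y z => by
        apply Subtype.ext
        simp only [Subgroup.coe_mul]
        group }
  map_one' := by
    ext y
    simp
  map_mul' x x' := by
    ext y
    simp [mul_assoc]

theorem cj_apply {Q : Type} [Group Q] (X T : Subgroup Q)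
    (h : ∀ x ∈ X, ∀ y ∈ T, x * y * x⁻¹ ∈ T) (x : X) (y : T) :
    ((cj X T h x y : T) : Q) = (x : Q) * (y : Q) * (x : Q)⁻¹ := rfl

theorem perf {Q : Type} [Group Q] (X : Subgroup Q) (h : ⁅X, X⁆ = X) (k : ℕ) :
    derivedSeries X k = ⊤ := by
  have h1 : ⁅(⊤ : Subgroup X), (⊤ : Subgroup X)⁆ = ⊤ := by
    apply Subgroup.map_injective X.subtype_injective
    rw [Subgroup.map_commutator, ← MonoidHom.range_eq_map, Subgroup.range_subtype, h]
  induction k with
  | zero => rfl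
  | succ k ih => rw [derivedSeries_succ, ih, h1]

theorem pf_out (hXP : T_XP) : T_OUT := by
  intro Q Ω _ _ _ _ ψ X hc hX T hTX hTk hna hnorm hsol
  obtain ⟨d, hd⟩ := hsol
  have hperf := hXP Q Ω ψ X hc hX
  have hf : ∀ x : X, cj X T hnorm x ∈ derivedSeries (MulAut T) d := by
    intro x
    apply map_derivedSeries_le_derivedSeries (cj X T hnorm) d
    rw [perf X hperf d]
    exact ⟨x, trivial, rfl⟩
  have hu : ∀ x ∈ X, ∃ u ∈ T, ∀ y ∈ T, x * y * x⁻¹ = u * y * u⁻¹ := by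
    intro x hx
    obtain ⟨u, hu⟩ := hd (hf ⟨x, hx⟩)
    refine ⟨u, u.2, fun y hy => ?_⟩
    have h1 := cj_apply X T hnorm ⟨x, hx⟩ ⟨y, hy⟩
    rw [← hu] at h1
    rw [← h1]
    rfl
  let C : Subgroup Q := X ⊓ Subgroup.centralizer (T : Set Q)
  have hCX : C ≤ X := inf_le_left
  have hCn : ∀ x ∈ X, ∀ y ∈ C, x * y * x⁻¹ ∈ C := by
    intro x hx y hy
    refine ⟨X.mul_mem (X.mul_mem hx hy.1) (X.inv_mem hx), ?_⟩
    refine Subgroup.mem_centralizer_iff.mpr ?_
    intro t ht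
    have h1 : x⁻¹ * t * x ∈ T := by
      have := hnorm x⁻¹ (X.inv_mem hx) t ht
      rwa [inv_inv] at this
    have h2 := (Subgroup.mem_centralizer_iff.mp hy.2) _ h1
    have h3 : x * (x⁻¹ * t * x * y) * x⁻¹ = x * (y * (x⁻¹ * t * x)) * x⁻¹ := by rw [h2]
    calc t * (x * y * x⁻¹) = x * (x⁻¹ * t * x * y) * x⁻¹ := by group
      _ = x * (y * (x⁻¹ * t * x)) * x⁻¹ := h3
      _ = x * y * x⁻¹ * t := by group
  have hCm : C.map ψ = ⊤ := by
    rw [eq_top_iff]
    intro σ _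
    have hσ : σ ∈ X.map ψ := by rw [hX.2.1]; trivial
    obtain ⟨x, hx, hxσ⟩ := hσ
    obtain ⟨u, huT, hu2⟩ := hu x hx
    refine ⟨u⁻¹ * x, ⟨X.mul_mem (X.inv_mem (hTX huT)) hx, ?_⟩, ?_⟩
    · refine Subgroup.mem_centralizer_iff.mpr ?_
      intro t ht
      have h1 := hu2 t ht
      calc t * (u⁻¹ * x) = u⁻¹ * (u * t * u⁻¹) * x := by group
        _ = u⁻¹ * (x * t * x⁻¹) * x := by rw [h1]
        _ = u⁻¹ * x * t := by group
    · rw [map_mul, map_inv, (MonoidHom.mem_ker.mp (hTk huT)), hxσ]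
      simp
  have hCe : C = X := hX.2.2 C hCX hCn hCm
  obtain ⟨x, hx, y, hy, hxy⟩ := hna
  have hy' : y ∈ C := by rw [hCe]; exact hTX hy
  exact hxy ((Subgroup.mem_centralizer_iff.mp hy'.2) x hx)

end Pool.Agent.H34.NZ.OUT
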